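import Mathlib
import Pool.Agent.W292.RG.Stm

/-!
# The arithmetic of the last case
-/

set_option autoImplicit false

namespace Pool.Agent.W287.RG

open Pool.Agent.W292.RG

theorem AR : St_AR := by
  intro d D r n a s w hd hdD hr hrr hD hn hds hw
  have h1 : 140 * D ^ 2 * r ≤ d * n := by
    by_contra hcon
    have hcon' : d * n < 140 * D ^ 2 * r := Nat.lt_of_not_le hcon
    have h2 : (d * n) ^ 2 < (140 * D ^ 2 * r) ^ 2 := Nat.pow_lt_pow_left hcon' (by norm_num)
    have h3 : (140 * D ^ 2 * r) ^ 2 = 19600 * D ^ 4 * (r * r) := by ring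
    have h4 : 19600 * D ^ 4 * (r * r) ≤ 19600 * D ^ 4 * D := Nat.mul_le_mul_left _ hrr
    have h5 : 19600 * D ^ 4 * D = 19600 * D ^ 5 := by ring
    have h6 : (d * n) ^ 2 = d ^ 2 * n ^ 2 := by ring
    omega
  have h2 : d * n = d * a + d * s + d * w := by rw [hn]; ring
  have h3 : d * a ≤ D * a := Nat.mul_le_mul_right _ hdD
  have h4 : d * w ≤ D * w := Nat.mul_le_mul_right _ hdD
  have hD1 : 0 < D := by omega
  have h5 : D * (140 * (D * r)) ≤ D * (2 * a + w) := by
    have h6 : D * (140 * (D * r)) = 140 * D ^ 2 * r := by ring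
    have h7 : D * (2 * a + w) = D * a + D * a + D * w := by ring
    omega
  have h6 : 140 * (D * r) ≤ 2 * a + w := Nat.le_of_mul_le_mul_left h5 hD1
  have h7 : D * 1 ≤ D * r := Nat.mul_le_mul_left _ hr
  omega

end Pool.Agent.W287.RG
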